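import Pool.Agent.Q109.LD.Stm

/-! # Project LD (helper109), jobs GEN and UP1 -/

set_option autoImplicit false

namespace Pool.Agent.Q241.LD

open Set Q109.LD

theorem gen : S_GEN := by
  intro d W hW hne
  classical
  set s : Finset (Submodule ℝ (E d)) := hW.toFinset.image fun w => (Submodule.span ℝ {w})ᗮ with hs
  have htop : ⊤ ∉ s := by
    intro hmem
    rw [hs, Finset.mem_image] at hmem
    obtain ⟨w, hw, hw2⟩ := hmem
    have hw0 := hne w (hW.mem_toFinset.1 hw)
    have h1 : w ∈ (Submodule.span ℝ {w})ᗮ := by rw [hw2]; trivial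
    rw [Submodule.mem_orthogonal_singleton_iff_inner_right] at h1
    exact hw0 (inner_self_eq_zero.1 h1)
  have hun := Subspace.biUnion_ne_univ_of_top_notMem htop
  rw [Ne, Set.eq_univ_iff_forall, not_forall] at hun
  obtain ⟨g, hg⟩ := hun
  refine ⟨g, fun w hw h0 => hg ?_⟩
  rw [Set.mem_iUnion₂]
  refine ⟨(Submodule.span ℝ {w})ᗮ, ?_, ?_⟩
  · rw [hs, Finset.mem_image]
    exact ⟨w, hW.mem_toFinset.2 hw, rfl⟩
  · rw [SetLike.mem_coe, Submodule.mem_orthogonal_singleton_iff_inner_left]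
    exact h0

/-- a point of a facet is on the boundary -/
lemma facet_frontier {d : ℕ} {P F : Set (E d)} (hF : IsFacet P F) {x : E d} (hx : x ∈ F) : x ∈ frontier P := by
  obtain ⟨u, h, hu, hle, rfl, -, -⟩ := hF
  refine ⟨subset_closure hx.1, fun hint => ?_⟩
  obtain ⟨ε, hε, hball⟩ := Metric.mem_nhds_iff.1 (mem_interior_iff_mem_nhds.1 hint)
  have hun : 0 < ‖u‖ := norm_pos_iff.2 hu
  have h1 : x + (ε / (2 * ‖u‖)) • u ∈ P := by
    apply hball
    rw [Metric.mem_ball, dist_eq_norm, add_sub_cancel_left, norm_smul, Real.norm_eq_abs, abs_of_pos (by positivity)]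
    have : ε / (2 * ‖u‖) * ‖u‖ = ε / 2 := by field_simp
    rw [this]
    linarith
  have h2 := hle _ h1
  rw [inner_add_right, hx.2, inner_smul_right, real_inner_self_eq_norm_sq] at h2
  have : 0 < ε / (2 * ‖u‖) * ‖u‖ ^ 2 := by positivity
  linarith

theorem up1 (hr : S_HREP) : S_UP1 := by
  intro d hd P hP hint
  obtain ⟨n, u, h, -, -, -, hF⟩ := hr d hd P hP hint
  have hfin : {F : Set (E d) | IsFacet P F}.Finite := by rw [hF]; exact Set.finite_range _
  have hne : ∀ F : Set (E d), IsFacet P F → ∃ x, x ∈ F := by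
    rintro F ⟨_, _, _, _, _, hn, _⟩
    exact hn
  choose! f hf using hne
  have hrep : Represents P (f '' {F : Set (E d) | IsFacet P F}) := by
    refine ⟨hfin.image _, ?_, fun F hF' => ⟨f F, ⟨F, hF', rfl⟩, hf F hF'⟩⟩
    rintro _ ⟨F, hF', rfl⟩
    exact facet_frontier hF' (hf F hF')
  have hmem : (f '' {F : Set (E d) | IsFacet P F}).ncard ∈ {k : ℕ | ∃ K : Set (E d), Represents P K ∧ K.ncard = k} :=
    ⟨_, hrep, rfl⟩
  have hle : minRep P ≤ {F : Set (E d) | IsFacet P F}.ncard :=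
    (Nat.sInf_le hmem).trans (Set.ncard_image_le hfin)
  unfold ratio
  exact div_le_one_of_le₀ (by exact_mod_cast hle) (Nat.cast_nonneg _)

end Pool.Agent.Q241.LD
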